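import Pool.Agent.H.MP_ec274c_lc.C

namespace Pool.Agent.Results.MP_ec274c_lc.Complete

open Pool.Agent.Lib.CX Pool.Agent.H.MP_ec274c_lc

theorem result : (NPComplete fun a : {a : Gr × ℤ // Nice a.1.G} => MinSumLe a.1.1.G a.1.2) ∧
    InP fun a : {a : Gr × ℤ // a.1.G.IsAcyclic} => MinSumLe a.1.1.G a.1.2 :=
  ⟨⟨inNP.red ⟨fun a => a.1, PT.id.cast fun _ => rfl, fun _ => Iff.rfl⟩, hard⟩, forest⟩

end Pool.Agent.Results.MP_ec274c_lc.Complete
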